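import Mathlib

namespace Pool.Agent.H.MP_d6c85c_lc

open Cardinal Set Function

theorem bern {X J : Type} (F : J → Set X) (h : ∀ j, #J ≤ #(F j)) :
    ∃ g : J → X, Injective g ∧ ∀ j, g j ∈ F j := by
  obtain ⟨_, _, hr⟩ := exists_ord_eq_type_lt J
  have : ∀ (j : J) (g : (k : J) → k < j → X), ∃ x ∈ F j, ∀ k h, g k h ≠ x := fun j g => by
    by_contra! k
    have : F j ⊆ range fun k : Iio j => g k.1 k.2 := fun x hx =>
      (k x hx).elim fun a ⟨b, c⟩ => ⟨⟨a, b⟩, c⟩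
    exact ((h j).trans ((mk_le_mk_of_subset this).trans mk_range_le)).not_gt (mk_Iio_lt j hr)
  choose G h1 h2 using this
  have e : ∀ j, wellFounded_lt.fix G j = G j fun k _ => wellFounded_lt.fix G k :=
    wellFounded_lt.fix_eq G
  exact ⟨wellFounded_lt.fix G, Injective.of_lt_imp_ne fun a b hab => e b ▸ h2 b (fun k _ => wellFounded_lt.fix G k) a hab,
    fun j => e j ▸ h1 j _⟩

theorem bern2 {X Φ C : Type} [Inhabited C] (F : Φ → Set X) {θ : Cardinal} (h0 : ℵ₀ ≤ θ)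
    (h1 : #Φ ≤ θ) (h2 : #C ≤ θ) :
    ∃ d : X → C, ∀ φ, θ ≤ #(F φ) → ∀ ξ, ∃ y ∈ F φ, d y = ξ := by
  obtain ⟨g, a1, a2⟩ := bern (fun j : {φ // θ ≤ #(F φ)} × C => F j.1.1) fun j => by
    refine le_trans ?_ j.1.2
    rw [mk_prod, lift_id, lift_id, ← mul_eq_self h0]
    exact mul_le_mul' ((mk_subtype_le _).trans h1) h2
  exact ⟨extend g Prod.snd default, fun φ hφ ξ => ⟨_, a2 (⟨φ, hφ⟩, ξ), a1.extend_apply _ _ _⟩⟩

variable {M I Q : Type} [PartialOrder Q] {κ : Cardinal.{0}}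

abbrev Nd (Q : Type) [PartialOrder Q] := {p : Q × Q // p.1 < p.2}

def Ext (f : Q → Set M) (D : Set M) (N N' : Nd Q) : Prop :=
  N.1.1 ≤ N'.1.1 ∧ N'.1.2 ≤ N.1.2 ∧ f N'.1.2 ∩ D ⊆ f N'.1.1

def Wide (Q : Type) [PartialOrder Q] (κ : Cardinal.{0}) : Prop :=
  ∀ a b : Q, a < b → ∀ (L : Type) [LinearOrder L], #L < κ →
    ∃ e : L → Q, StrictMono e ∧ ∀ x, a ≤ e x ∧ e x ≤ b

theorem chain (hκ : IsStrongLimit κ) (hw : Wide Q κ) (N : Nd Q) (L : Type) [LinearOrder L]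
    (hL : #L < κ) : ∃ u v w : L → Q, (∀ x, N.1.1 ≤ u x ∧ u x < v x ∧ v x < w x ∧ w x ≤ N.1.2) ∧
      ∀ x y, x < y → w x ≤ u y := by
  obtain ⟨e, h1, h2⟩ := hw _ _ N.2 (L ×ₗ Fin 3) (by
    change #(L × Fin 3) < κ
    rw [mk_prod, lift_id, lift_id]
    exact mul_lt_of_lt hκ.aleph0_le hL ((lt_aleph0_of_finite _).trans_le hκ.aleph0_le))
  refine ⟨fun x => e (toLex (x, 0)), fun x => e (toLex (x, 1)), fun x => e (toLex (x, 2)),
    fun x => ⟨(h2 _).1, h1 ?_, h1 ?_, (h2 _).2⟩, fun x y h => (h1 ?_).le⟩ <;>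
  simp [Prod.Lex.toLex_lt_toLex, *]

variable {f : Q → Set M}

theorem const (hκ : IsStrongLimit κ) (hw : Wide Q κ) (hf : Monotone f) (N : Nd Q) {D : Set M}
    (hD : #D < κ) : ∃ N', Ext f D N N' := by
  obtain ⟨u, v, w, h1, h2⟩ := chain hκ hw N (2 ^ #D : Cardinal).ord.ToType
    (by simpa using hκ.isStrongPrelimit hD)
  by_contra! k
  have : ∀ x, ∃ c : D, c.1 ∈ f (w x) ∧ c.1 ∉ f (u x) := fun x => by
    obtain ⟨a1, a2, a3, a4⟩ := h1 x
    obtain ⟨c, b1, b2⟩ := not_subset.1 fun h => k ⟨(u x, w x), a2.trans a3⟩ ⟨a1, a4, h⟩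
    exact ⟨⟨c, b1.2⟩, b1.1, b2⟩
  choose c c1 c2 using this
  have := mk_le_of_injective (f := c) (Injective.of_lt_imp_ne fun x y h e =>
    c2 y (hf (h2 x y h) (e ▸ c1 x)))
  rw [mk_ord_toType] at this
  exact this.not_gt (cantor _)

theorem many (hκ : IsStrongLimit κ) (h0 : ℵ₀ < κ) (hw : Wide Q κ) (hf : ∀ x y, f x ≤ f y ↔ x ≤ y)
    {D : I → Set M} (hI : #I < κ) (hD : ∀ i, #(D i) < κ) (hc : ∀ c, ∃ i, c ∈ D i) (N : Nd Q)
    {l : Cardinal} (hl : l < κ) : ∃ i0, ∀ i, D i0 ⊆ D i →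
      l < #((fun N' : Nd Q => f N'.1.1 ∩ D i) '' {N' | Ext f (D i) N N'}) := by
  have hm : Monotone f := fun x y => (hf x y).2
  set m := max ℵ₀ (max l #I)
  have m0 : ℵ₀ ≤ m := le_max_left _ _
  have m1 : m < κ := max_lt h0 (max_lt hl hI)
  obtain ⟨u, v, w, h1, h2⟩ := chain hκ hw N (2 ^ m : Cardinal).ord.ToType
    (by simpa using hκ.isStrongPrelimit m1)
  have : ∀ x, ∃ c, c ∈ f (v x) ∧ c ∉ f (u x) := fun x =>
    not_subset.1 fun h => (h1 x).2.1.not_ge ((hf _ _).1 h)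
  choose c c1 c2 using this
  obtain ⟨i0, h3⟩ : ∃ i0, m < #{x | c x ∈ D i0} := by
    by_contra! k
    have := mk_iUnion_le fun i => {x | c x ∈ D i}
    rw [eq_univ_of_forall (s := ⋃ i, {x | c x ∈ D i}) fun x => mem_iUnion.2 (hc _), mk_univ,
      mk_ord_toType] at this
    refine (this.trans ?_).not_gt (cantor m)
    exact (mul_le_mul' ((le_max_right _ _).trans (le_max_right _ _)) (ciSup_le' k)).trans_eq
      (mul_eq_self m0)
  refine ⟨i0, fun i hi => (((le_max_left _ _).trans (le_max_right _ _)).trans_lt h3).trans_le ?_⟩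
  choose N' hN using fun x => const hκ hw hm ⟨(v x, w x), (h1 x).2.2.1⟩ (hD i)
  refine mk_le_of_injective (f := fun x => ⟨_, N' x.1, ⟨(h1 _).1.trans ((h1 _).2.1.le.trans (hN _).1),
    (hN _).2.1.trans (h1 _).2.2.2, (hN _).2.2⟩, rfl⟩) (Injective.of_lt_imp_ne fun x y h e => ?_)
  have : c y ∈ f (N' x).1.1 ∩ D i := (Subtype.mk.inj e).ge ⟨hm (hN _).1 (c1 _), hi y.2⟩
  exact c2 y (hm ((N' x).2.le.trans ((hN _).2.1.trans (h2 _ _ h))) this.1)

inductive B (f : Q → Set M) (D : ℕ → Set M) : Ordinal.{0} → ℕ → Nd Q → Prop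
  | mk {o : Ordinal.{0}} {n : ℕ} {N : Nd Q} (H : Set (Set M)) (r : Nd Q → Ordinal.{0}) :
    #H < 2 ^ #(D n) → (∀ N', Ext f (D (n + 1)) N N' → f N'.1.1 ∩ D (n + 1) ∉ H → r N' < o) →
    (∀ N', Ext f (D (n + 1)) N N' → f N'.1.1 ∩ D (n + 1) ∉ H → B f D (r N') (n + 1) N') →
    B f D o n N

theorem good {D : ℕ → Set M} {n : ℕ} {N : Nd Q} (h : ¬∃ o, B f D o n N) :
    ∃ E : Set (D n) → Nd Q, (∀ t, Ext f (D (n + 1)) N (E t) ∧ ¬∃ o, B f D o (n + 1) (E t)) ∧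
      Injective fun t => f (E t).1.1 ∩ D (n + 1) := by
  classical
  have : #(Set (D n)) ≤ #((fun N' : Nd Q => f N'.1.1 ∩ D (n + 1)) ''
      {N' | Ext f (D (n + 1)) N N' ∧ ¬∃ o, B f D o (n + 1) N'}) := by
    by_contra k
    rw [mk_set, not_le] at k
    set r : Nd Q → Ordinal.{0} := fun N' => if h : ∃ o, B f D o (n + 1) N' then h.choose else 0
    obtain ⟨o, ho⟩ := Ordinal.bddAbove_of_small (s := range r)
    refine h ⟨o + 1, .mk _ r k (fun N' _ _ => Order.lt_add_one_iff.2 (ho ⟨N', rfl⟩))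
      fun N' a b => ?_⟩
    have c : ∃ o, B f D o (n + 1) N' := by_contra fun c => b ⟨N', ⟨a, c⟩, rfl⟩
    simp only [r, dif_pos c]
    exact c.choose_spec
  obtain ⟨e⟩ := this
  choose E h1 h2 using fun t => (e t).2
  exact ⟨E, h1, fun s t h => e.injective (Subtype.ext ((h2 s).symm.trans (h.trans (h2 t))))⟩

theorem play (hκ : IsStrongLimit κ) (h0 : ℵ₀ < κ) (hw : Wide Q κ) (hf : ∀ x y, f x ≤ f y ↔ x ≤ y)
    {D : I → Set M} (hI : #I < κ) (hI' : #(ℕ → I) < κ) (hD : ∀ i, #(D i) < κ)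
    (hc : ∀ c, ∃ i, c ∈ D i)
    (hd : ∀ i i', ∀ l < κ, ∃ j, D i ⊆ D j ∧ D i' ⊆ D j ∧ l ≤ #(D j)) (i0 : I) (N0 : Nd Q) :
    ∃ η : ℕ → I, η 0 = i0 ∧ (∀ n, D (η n) ⊆ D (η (n + 1)) ∧ 2 ^ #(D (η n)) ≤ #(D (η (n + 1)))) ∧
      ¬∃ o, B f (fun n => D (η n)) o 0 N0 := by
  set ρ : (ℕ → I) → ℕ → Nd Q → Ordinal.{0} := fun η n N => sInf {o | B f (fun n => D (η n)) o n N}
  have : ∀ (η : ℕ → I) n N, ∃ H : Set (Set M), #H ≤ 2 ^ #(D (η n)) ∧
      ((∃ o, B f (fun n => D (η n)) o n N) → ∀ N', Ext f (D (η (n + 1))) N N' →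
        f N'.1.1 ∩ D (η (n + 1)) ∉ H → (∃ o, B f (fun n => D (η n)) o (n + 1) N') ∧
          ρ η (n + 1) N' < ρ η n N) := fun η n N => by
    by_cases h : ∃ o, B f (fun n => D (η n)) o n N
    · have : B f (fun n => D (η n)) (ρ η n N) n N := csInf_mem h
      generalize ρ η n N = o at this ⊢
      obtain ⟨H, r, a1, a2, a3⟩ := this
      exact ⟨H, a1.le, fun _ N' b1 b2 =>
        ⟨⟨_, a3 N' b1 b2⟩, (csInf_le' (s := {o | B f (fun n => D (η n)) o (n + 1) N'}) (a3 N' b1 b2)).trans_lt (a2 N' b1 b2)⟩⟩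
    · exact ⟨∅, by simp, fun h' => (h h').elim⟩
  choose H h1 h2 using this
  have : ∀ n i N, ∃ p : I × Nd Q, D i ⊆ D p.1 ∧ 2 ^ #(D i) ≤ #(D p.1) ∧ Ext f (D p.1) N p.2 ∧
      ∀ η, η n = i → f p.2.1.1 ∩ D p.1 ∉ H η n N := fun n i N => by
    have a0 := hκ.isStrongPrelimit (hD i)
    obtain ⟨j, a1⟩ := many hκ h0 hw hf hI hD hc N (mul_lt_of_lt hκ.aleph0_le hI' a0)
    obtain ⟨j', a2, a3, a4⟩ := hd i j _ a0
    have a5 : #(⋃ η : {η : ℕ → I // η n = i}, H η n N) ≤ #(ℕ → I) * 2 ^ #(D i) :=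
      (mk_iUnion_le _).trans (mul_le_mul' (mk_subtype_le _) (ciSup_le' fun η => (h1 η n N).trans_eq (by rw [η.2])))
    obtain ⟨_, ⟨N', b1, rfl⟩, b2⟩ := not_subset.1 fun h =>
      (a5.trans_lt (a1 j' a3)).not_ge (mk_le_mk_of_subset h)
    exact ⟨(j', N'), a2, a4, b1, fun η hη h => b2 (mem_iUnion.2 ⟨⟨η, hη⟩, h⟩)⟩
  choose F a1 a2 a3 a4 using this
  let s : ℕ → I × Nd Q := fun n => n.rec (i0, N0) fun n p => F n p.1 p.2
  refine ⟨fun n => (s n).1, rfl, fun n => ⟨a1 _ _ _, a2 _ _ _⟩, fun h => ?_⟩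
  have k : ∀ n, ∃ o, B f (fun n => D (s n).1) o n (s n).2 := fun n => by
    induction n with
    | zero => exact h
    | succ n ih => exact (h2 _ n _ ih _ (a3 _ _ _) (a4 _ _ _ _ rfl)).1
  obtain ⟨n, hn⟩ := WellFounded.not_rel_apply_succ (r := (· < ·))
    fun n => ρ (fun n => (s n).1) n (s n).2
  exact hn (h2 _ n _ (k n) _ (a3 _ _ _) (a4 _ _ _ _ rfl)).2

def lst {T : ℕ → Type} (b : (n : ℕ) → T n) : ℕ → List (Σ n, T n)
  | 0 => []
  | n + 1 => ⟨n, b n⟩ :: lst b n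

theorem lst_len {T : ℕ → Type} (b : (n : ℕ) → T n) : ∀ n, (lst b n).length = n
  | 0 => rfl
  | n + 1 => congrArg (· + 1) (lst_len b n)

theorem core (hκ : IsStrongLimit κ) (h0 : ℵ₀ < κ) (hw : Wide Q κ)
    (hs : ∀ a b : ℕ → Q, (∀ n m, a n ≤ b m) → ∃ q, ∀ n, a n ≤ q ∧ q ≤ b n)
    {D : I → Set M} (hI : #I < κ) (hI' : #(ℕ → I) < κ) (hD : ∀ i, #(D i) < κ)
    (hc : ∀ c, ∃ i, c ∈ D i)
    (hd : ∀ i i', ∀ l < κ, ∃ j, D i ⊆ D j ∧ D i' ⊆ D j ∧ l ≤ #(D j)) (i1 : I) (N0 : Nd Q) :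
    ∃ c : Set M → Set (ℕ → I), ∀ ξ (f : Q → Set M), (∀ x y, f x ≤ f y ↔ x ≤ y) →
      ¬∀ q, c (f q) = ξ := by
  have : ∀ η : ℕ → I, ∃ d : Set (⋃ n, D (η n)) → Set (ℕ → I), max ℵ₀ #(ℕ → I) ≤ #(D (η 0)) →
      (∀ n, 2 ^ #(D (η n)) ≤ #(D (η (n + 1)))) →
      ∀ φ : List (Σ n, Set (D (η n))) → Set (⋃ n, D (η n)),
        (Injective fun b => ⋃ n, φ (lst b n)) → ∀ ξ, ∃ b, d (⋃ n, φ (lst b n)) = ξ := fun η => by
    by_cases h : max ℵ₀ #(ℕ → I) ≤ #(D (η 0)) ∧ ∀ n, 2 ^ #(D (η n)) ≤ #(D (η (n + 1)))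
    swap
    · exact ⟨default, fun a b => (h ⟨a, b⟩).elim⟩
    set ν := sum fun n => #(D (η n)) with hν
    have a1 := max_le_iff.1 (h.1.trans (le_sum (fun n => #(D (η n))) 0))
    have a2 : #(List (Σ n, Set (D (η n)))) ≤ ν := by
      refine (mk_list_le_max _).trans (max_le a1.1 ?_)
      rw [mk_sigma, hν, sum_nat_eq_add_sum_succ fun n => #(D (η n))]
      exact (sum_le_sum _ _ fun n => (mk_set.trans_le (h.2 n))).trans le_add_self
    obtain ⟨d, hd⟩ := bern2 (C := Set (ℕ → I)) (θ := 2 ^ ν)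
      (fun φ : List (Σ n, Set (D (η n))) → Set (⋃ n, D (η n)) => range fun b => ⋃ n, φ (lst b n))
      (a1.1.trans (cantor _).le) (by
        rw [← power_def, mk_set, ← power_mul]
        exact power_le_power_left two_ne_zero
          ((mul_le_mul' mk_iUnion_le_sum_mk a2).trans_eq (mul_eq_self a1.1)))
      (mk_set.trans_le (power_le_power_left two_ne_zero a1.2))
    refine ⟨d, fun _ _ φ hφ ξ => ?_⟩
    obtain ⟨_, ⟨b, rfl⟩, h⟩ := hd φ (by simp [mk_range_eq _ hφ, hν, power_sum]) ξ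
    exact ⟨b, h⟩
  choose d hd' using this
  have : ∀ x : Set M, ∃ ξ, ∀ η, d η (Subtype.val ⁻¹' x) ≠ ξ := fun x => by
    simpa [Surjective] using cantor_surjective fun η => d η (Subtype.val ⁻¹' x)
  choose c hc' using this
  refine ⟨c, fun ξ f hf hξ => ?_⟩
  have hm : Monotone f := fun x y => (hf x y).2
  obtain ⟨i0, -, -, a0⟩ := hd i1 i1 _ (max_lt h0 hI')
  obtain ⟨η, rfl, a1, a2⟩ := play hκ h0 hw hf hI hI' hD hc hd i0 N0
  have : ∀ n N, ∃ E : Set (D (η n)) → Nd Q, (¬∃ o, B f (fun n => D (η n)) o n N) →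
      (∀ t, Ext f (D (η (n + 1))) N (E t) ∧ ¬∃ o, B f (fun n => D (η n)) o (n + 1) (E t)) ∧
      Injective fun t => f (E t).1.1 ∩ D (η (n + 1)) := fun n N => by
    by_cases h : ∃ o, B f (fun n => D (η n)) o n N
    · exact ⟨fun _ => N, fun h' => (h' h).elim⟩
    · exact (good h).imp fun E hE _ => hE
  choose E hE using this
  set P : List (Σ n, Set (D (η n))) → Nd Q := fun l => l.foldr (fun t N => E t.1 N t.2) N0
  have b1 : ∀ b n, ¬∃ o, B f (fun n => D (η n)) o n (P (lst b n)) := fun b n => by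
    induction n with
    | zero => exact a2
    | succ n ih => exact ((hE _ _ ih).1 _).2
  have b2 : ∀ b n, Ext f (D (η (n + 1))) (P (lst b n)) (P (lst b (n + 1))) := fun b n =>
    ((hE _ _ (b1 b n)).1 _).1
  choose q hq using fun b => hs (fun n => (P (lst b n)).1.1) (fun n => (P (lst b n)).1.2)
    fun n m => (monotone_nat_of_le_succ (fun n => (b2 b n).1) (le_max_left n m)).trans
      ((P _).2.le.trans (antitone_nat_of_succ_le (f := fun n => (P (lst b n)).1.2)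
        (fun n => (b2 b n).2.1) (le_max_right n m)))
  have b3 : ∀ b n, f (P (lst b (n + 1))).1.1 ∩ D (η (n + 1)) = f (q b) ∩ D (η (n + 1)) :=
    fun b n => Subset.antisymm (fun x h => ⟨hm (hq b _).1 h.1, h.2⟩)
      fun x h => ⟨(b2 b n).2.2 ⟨hm (hq b _).2 h.1, h.2⟩, h.2⟩
  have b4 : ∀ b, (⋃ n, Subtype.val ⁻¹' (f (P (lst b n)).1.1 ∩ D (η (lst b n).length)) :
      Set (⋃ n, D (η n))) = Subtype.val ⁻¹' f (q b) := fun b => by
    refine Subset.antisymm (iUnion_subset fun n x h => hm (hq b n).1 h.1) fun x h => ?_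
    obtain ⟨n, hn⟩ := mem_iUnion.1 x.2
    refine mem_iUnion.2 ⟨n + 1, ?_⟩
    rw [lst_len, b3]
    exact ⟨h, (a1 n).1 hn⟩
  obtain ⟨b, hb⟩ := hd' η a0 (fun n => (a1 n).2)
    (fun l => Subtype.val ⁻¹' (f (P l).1.1 ∩ D (η l.length))) (fun b b' h => by
      simp only [b4] at h
      have k : ∀ n, lst b n = lst b' n → b n = b' n := fun n e => (hE n _ (b1 b n)).2 (by
        have := b3 b' n
        simp only [lst, ← e] at this
        refine (b3 b n).trans (.trans ?_ this.symm)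
        ext x
        exact and_congr_left fun hx => Set.ext_iff.1 h ⟨x, mem_iUnion.2 ⟨_, hx⟩⟩)
      have k' : ∀ n, lst b n = lst b' n := fun n => by
        induction n with
        | zero => rfl
        | succ n ih => rw [lst, lst, ih, k n ih]
      exact funext fun n => k n (k' n)) ξ
  exact hc' (f (q b)) η (by rw [← b4, hb, hξ])

end Pool.Agent.H.MP_d6c85c_lc
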