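import Pool.Agent.H.MP_d6c85c_lc.A

namespace Pool.Agent.H.MP_d6c85c_lc

open Cardinal Set Function

abbrev Bd (M : Type) [LinearOrder M] := {a : Πₗ _ : M, Prop // ∃ j, ∀ m, a m → m < j}

variable {M : Type} [LinearOrder M] [WellFoundedLT M]

theorem sat (h : ∀ j : ℕ → M, ∃ J, ∀ n, j n < J) (a b : ℕ → Bd M) (hab : ∀ n m, a n ≤ b m) :
    ∃ q, ∀ n, a n ≤ q ∧ q ≤ b n := by
  choose j hj using fun n => (a n).2
  obtain ⟨J, hJ⟩ := h j
  set s := ⨆ n, (a n).1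
  refine ⟨⟨toLex fun m => s m ∧ m < J, J, fun m h => h.2⟩, fun n => ⟨?_, ?_⟩⟩
  · by_contra! k
    obtain ⟨i, h1, h2⟩ := k
    have h3 : (a n).1 i := by_contra fun h => h (h2.le (by_contra fun h' => h2.ne (propext
      ⟨fun a => (h' a).elim, fun a => (h a).elim⟩)))
    have h4 := (hj n i h3).trans (hJ n)
    refine (le_iSup (fun n => (a n).1) n).not_gt ⟨i, fun k hk => ?_, ?_⟩
    · rw [← h1 k hk]
      exact propext ⟨fun h => ⟨h, hk.trans h4⟩, And.left⟩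
    · exact lt_of_le_of_lt (b := s i ∧ i < J) (fun h => ⟨h, h4⟩) h2
  · exact (Pi.toLex_monotone (b := s) fun m h => h.1).trans (iSup_le fun m => hab m n)

theorem wide [NoMaxOrder M] (hκ : IsStrongLimit #M) (h0 : ℵ₀ < #M) (h1 : ∀ j : M, #(Iic j) < #M)
    (h2 : ∀ l < #M, ∃ j : M, l ≤ #(Iic j)) : Wide (Bd M) #M := by
  rintro ⟨a, j0, ha⟩ ⟨b, hb⟩ ⟨i, a1, a2⟩ L _ hL
  set m := max ℵ₀ (max #L #(Iic (max i j0)))
  obtain ⟨J, hJ⟩ := h2 _ (hκ.isStrongPrelimit (x := m) (max_lt h0 (max_lt hL (h1 _))))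
  obtain ⟨g⟩ : #L ≤ #(Iic J \ Iic (max i j0) : Set M) := by
    by_contra! k
    refine (hJ.trans ((le_mk_sdiff_add_mk _ (Iic (max i j0))).trans ?_)).not_gt (cantor m)
    exact (add_le_add (k.le.trans ((le_max_left _ _).trans (le_max_right _ _)))
      ((le_max_right _ _).trans (le_max_right _ _))).trans_eq (add_eq_self (le_max_left _ _))
  obtain ⟨J', hJ'⟩ := exists_gt (max J j0)
  have hg : ∀ x, max i j0 < g x := fun x => not_le.1 (g x).2.2
  refine ⟨fun x => ⟨toLex fun m => a m ∨ ∃ y < x, g y = m, J', ?_⟩, fun x y h => ?_,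
    fun x => ⟨Pi.toLex_monotone (a := a) fun m => Or.inl, le_of_lt ⟨i, fun k hk => ?_, ?_⟩⟩⟩
  · rintro m (h | ⟨y, -, rfl⟩)
    exacts [(ha m h).trans ((le_max_right _ _).trans_lt hJ'),
      ((g y).2.1.trans (le_max_left _ _)).trans_lt hJ']
  · refine lt_of_le_of_ne (Pi.toLex_monotone fun m => Or.imp_right
      fun ⟨z, c1, c2⟩ => ⟨z, c1.trans h, c2⟩) fun e => ?_
    rcases (congrFun (Subtype.mk.inj e) (g x)).ge (Or.inr ⟨x, h, rfl⟩) with c | ⟨z, c1, c2⟩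
    · exact (ha _ c).not_gt ((le_max_right _ _).trans_lt (hg x))
    · exact c1.ne (g.injective (Subtype.ext c2))
  · rw [← a1 k hk]
    exact propext (or_iff_left fun ⟨y, _, e⟩ =>
      hk.not_gt ((le_max_left _ _).trans_lt (e ▸ hg y)))
  · refine lt_of_le_of_lt (b := a i) (fun h => h.resolve_right fun ⟨y, _, e⟩ => ?_) a2
    exact (hg y).not_ge (e.le.trans (le_max_left _ _))

theorem main {κ : Cardinal.{0}} (hκ : IsStrongLimit κ) (h1 : ℵ₀ < κ.ord.cof) (h2 : κ.ord.cof < κ) :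
    ∃ c : Set κ.ord.ToType → κ.ord.ToType, ∃ (P : Type) (_ : PartialOrder P), #P = κ ∧
      ∀ ξ (f : P → Set κ.ord.ToType), (∀ x y, f x ≤ f y ↔ x ≤ y) → ¬∀ q, c (f q) = ξ := by
  have h0 := h1.trans h2
  have := noMaxOrder h0.le
  have e := mk_ord_toType κ
  obtain ⟨S, a1, a2⟩ := Order.exists_cof_eq κ.ord.ToType
  rw [Ordinal.cof_toType] at a2
  have a3 : ∀ j : κ.ord.ToType, #(Iic j) < κ := fun j => (exists_gt j).elim fun k hk =>
    (mk_le_mk_of_subset (Iic_subset_Iio.2 hk)).trans_lt ((mk_Iio_lt k (by simp)).trans_eq e)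
  have a4 : ∀ l < κ, ∃ j : κ.ord.ToType, l ≤ #(Iic j) := fun l hl => by
    by_contra! k
    have := mk_iUnion_le fun j : S => Iic j.1
    rw [eq_univ_of_forall (s := ⋃ j : S, Iic j.1) fun x =>
      (a1 x).elim fun y hy => mem_iUnion.2 ⟨⟨y, hy.1⟩, hy.2⟩, mk_univ, e] at this
    exact (this.trans (mul_le_mul' le_rfl (ciSup_le' fun j => (k j.1).le))).not_gt
      (mul_lt_of_lt h0.le (a2 ▸ h2) hl)
  have a5 : #(ℕ → S) < κ := by
    rw [← power_def, a2, mk_nat]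
    refine lt_of_le_of_lt ?_ (hκ.isStrongPrelimit h2)
    exact (power_le_power_right (cantor _).le).trans_eq (by
      rw [← power_mul, mul_eq_left h1.le h1.le aleph0_ne_zero])
  obtain ⟨j0, -⟩ := a4 0 hκ.ne_zero.pos
  obtain ⟨j1, b1⟩ := exists_gt j0
  obtain ⟨i1, b2, -⟩ := a1 j0
  obtain ⟨c, hc⟩ := core (Q := Bd κ.ord.ToType) (D := fun i : S => Iic i.1) hκ h0
    ((congrArg (Wide (Bd _)) e).mp (wide (e.symm ▸ hκ) (e.symm ▸ h0) (e.symm ▸ a3) (e.symm ▸ a4)))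
    (sat fun j => by
      obtain ⟨J, hJ⟩ := not_isCofinal_iff.1 fun h : IsCofinal (range j) =>
        (h1.trans_eq (Ordinal.cof_toType _).symm).not_ge ((Order.cof_le h).trans (mk_range_le.trans_eq mk_nat))
      exact ⟨J, fun n => hJ _ ⟨n, rfl⟩⟩) (a2 ▸ h2) a5 (fun i => a3 i)
    (fun c => (a1 c).elim fun y hy => ⟨⟨y, hy.1⟩, hy.2⟩) (fun i i' l hl => by
      obtain ⟨j, hj⟩ := a4 l hl
      obtain ⟨k, c1, c2⟩ := a1 (max j (max i i'))
      simp only [max_le_iff] at c2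
      exact ⟨⟨k, c1⟩, Iic_subset_Iic.2 c2.2.1, Iic_subset_Iic.2 c2.2.2,
        hj.trans (mk_le_mk_of_subset (Iic_subset_Iic.2 c2.1))⟩) ⟨i1, b2⟩
    ⟨(⟨toLex fun _ => False, j0, fun _ => False.elim⟩, ⟨toLex fun m => m = j0, j1, fun _ h => h ▸ b1⟩),
      lt_of_le_of_ne (Pi.toLex_monotone fun _ => False.elim)
        fun h => (congrFun (Subtype.mk.inj h) j0).ge rfl⟩
  obtain ⟨g⟩ : #(Set (ℕ → S)) ≤ #κ.ord.ToType := by
    rw [mk_set, e]
    exact (hκ.isStrongPrelimit a5).le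
  refine ⟨g ∘ c, Bd κ.ord.ToType, inferInstance, ?_, fun ξ f hf h => ?_⟩
  · exact (mk_bounded_subset (r := (· < ·)) (e.symm ▸ hκ.isStrongPrelimit) (by simp)).trans e
  · exact hc (c (f ⟨toLex fun _ => False, j0, fun _ => False.elim⟩)) f hf
      fun q => g.injective ((h q).trans (h _).symm)

theorem sum_eq {α : Ordinal.{0}} (hκ : IsStrongLimit (ℵ_ α)) (h0 : ℵ₀ < ℵ_ α) :
    lift.{1} (ℵ_ α) = sum fun ν : Iio α => (2 : Cardinal.{0}) ^ ℵ_ ν.1 := by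
  apply le_antisymm
  · have h : Order.IsSuccLimit α := by
      refine Ordinal.isSuccLimit_iff.2 ⟨by rintro rfl; simp at h0, fun β hβ => ?_⟩
      exact hκ.isSuccPrelimit (ℵ_ β) (by rw [← hβ.succ_eq, Order.succ_eq_add_one, ← succ_aleph]; exact Order.covBy_succ _)
    rw [aleph_limit h, lift_iSup bddAbove_of_small]
    exact ciSup_le' fun ν => (lift_le.2 (cantor _).le).trans
      (lift_le_sum (fun ν : Iio α => (2 : Cardinal.{0}) ^ ℵ_ ν.1) ν)
  · refine (sum_le_sum _ (fun _ => ℵ_ α) fun ν =>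
      (hκ.isStrongPrelimit (aleph_lt_aleph.2 ν.2)).le).trans ?_
    rw [sum_const, mk_Iio_ordinal, lift_lift, ← lift_mul, lift_le]
    exact (mul_le_mul' (Ordinal.card_le_aleph α) le_rfl).trans_eq (mul_eq_self h0.le)

end Pool.Agent.H.MP_d6c85c_lc
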